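import Pool.Agent.H45.SY.LA4

/-!
Group part 1: one elementary abelian step.
-/

set_option autoImplicit false

namespace Pool.H45.SY

open Pool.Agent.H49.Syl

universe u

/-- Lemma A for an action on an elementary abelian group -/
theorem lemmaA_grp {G : Type u} [Group G] {r : ℕ} (hr : r.Prime)
    (A : Type u) [CommGroup A] [Finite A] (hA : ∀ a : A, a ^ r = 1)
    (φ : G →* MulAut A)
    {ι : Type} [Finite ι] (p : ι → ℕ) (hp : ∀ i, (p i).Prime)
    (hpr : ∀ i, p i ≠ r) (hinj : Function.Injective p) (D : ι → Subgroup G)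
    (hD : ∀ i, IsPGroup (p i) (D i))
    (hcomm : ∀ i j, i ≠ j → ∀ a ∈ D i, ∀ b ∈ D j, φ (a * b) = φ (b * a))
    (y t : ι → A) :
    ∃ f : A, ∀ i, ∀ g ∈ D i, φ g (y i * f) = y i * f → φ g (t i) = t i := by
  classical
  have := Fact.mk hr
  let inst : Module (ZMod r) (Additive A) := AddCommGroup.zmodModule (n := r) (by
    intro x
    exact hA (Additive.toMul x))
  have hfin : Finite (Additive A) := inferInstanceAs (Finite A)
  obtain ⟨f, hf⟩ := lemmaA_aux (F := ZMod r) p hp hinj (by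
      intro i h0
      rw [ZMod.natCast_eq_zero_iff] at h0
      exact hpr i ((Nat.prime_dvd_prime_iff_eq hr (hp i)).mp h0).symm) _ (Additive A) rfl
      (fun i => (D i).map (rho1 A r φ)) (fun i => (hD i).map (rho1 A r φ)) (by
      intro i j hij g hg h hh
      obtain ⟨a, ha, rfl⟩ := Subgroup.mem_map.mp hg
      obtain ⟨b, hb, rfl⟩ := Subgroup.mem_map.mp hh
      rw [← map_mul, ← map_mul]
      apply Units.ext
      rw [rho1_coe, rho1_coe]
      apply LinearMap.ext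
      intro x
      change rho0 A r φ (a * b) (Additive.ofMul (Additive.toMul x)) =
        rho0 A r φ (b * a) (Additive.ofMul (Additive.toMul x))
      rw [rho0_apply, rho0_apply, hcomm i j hij a ha b hb])
      (fun i => Additive.ofMul (y i)) (fun i => Additive.ofMul (t i))
  refine ⟨Additive.toMul f, ?_⟩
  intro i g hg hc
  have h1 := hf i (rho1 A r φ g) (Subgroup.mem_map_of_mem _ hg) (by
    rw [rho1_coe]
    have e : f + Additive.ofMul (y i) = Additive.ofMul (y i * Additive.toMul f) := by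
      rw [add_comm]
      rfl
    rw [e, rho0_apply, hc])
  rw [rho1_coe, rho0_apply] at h1
  exact Additive.ofMul.injective h1

/-- the version for conjugation on a normal elementary abelian subgroup -/
theorem lemmaA_conj {G : Type u} [Group G] [Finite G] {r : ℕ} (hr : r.Prime)
    (Z : Subgroup G) [hZ : Z.Normal]
    (hZc : ∀ a ∈ Z, ∀ b ∈ Z, a * b = b * a) (hZr : ∀ a ∈ Z, a ^ r = 1)
    {ι : Type} [Finite ι] (p : ι → ℕ) (hp : ∀ i, (p i).Prime)
    (hpr : ∀ i, p i ≠ r) (hinj : Function.Injective p) (D : ι → Subgroup G)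
    (hD : ∀ i, IsPGroup (p i) (D i))
    (hcomm : ∀ i j, i ≠ j → ∀ a ∈ D i, ∀ b ∈ D j, ∀ n ∈ Z,
      ((b * a)⁻¹ * (a * b)) * n = n * ((b * a)⁻¹ * (a * b)))
    (y t : ι → G) (hy : ∀ i, y i ∈ Z) (ht : ∀ i, t i ∈ Z) :
    ∃ f ∈ Z, ∀ i, ∀ g ∈ D i, g * (y i * f) = (y i * f) * g → g * t i = t i * g := by
  classical
  let cg : CommGroup Z := { (inferInstance : Group Z) with
    mul_comm := fun a b => Subtype.ext (hZc a a.2 b b.2) }
  obtain ⟨f, hf⟩ := lemmaA_grp hr Z (by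
    intro a
    apply Subtype.ext
    exact hZr a a.2) (MulAut.conjNormal : G →* MulAut Z) p hp hpr hinj D hD (by
    intro i j hij a ha b hb
    have h1 : (MulAut.conjNormal ((b * a)⁻¹ * (a * b)) : MulAut Z) = 1 := by
      apply MulEquiv.ext
      intro x
      apply Subtype.ext
      rw [MulAut.conjNormal_apply, hcomm i j hij a ha b hb _ x.2]
      simp [mul_assoc]
    rw [map_mul, map_inv, inv_mul_eq_one] at h1
    exact h1.symm) (fun i => ⟨y i, hy i⟩) (fun i => ⟨t i, ht i⟩)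
  refine ⟨(f : G), f.2, ?_⟩
  intro i g hg hc
  have h1 := hf i g hg (by
    apply Subtype.ext
    rw [MulAut.conjNormal_apply]
    change g * (y i * (f : G)) * g⁻¹ = y i * (f : G)
    rw [hc]
    group)
  have h4 : g * t i * g⁻¹ = t i := by
    have := congrArg Subtype.val h1
    rw [MulAut.conjNormal_apply] at this
    exact this
  calc g * t i = g * t i * g⁻¹ * g := by group
    _ = t i * g := by rw [h4]

/-- a `p`-subgroup of `H Z` is conjugate under `Z` to a subgroup of `H` -/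
theorem conj_into {G : Type u} [Group G] [Finite G] {p r : ℕ} (hp : p.Prime) (hr : r.Prime)
    (hpr : p ≠ r) (Z H D : Subgroup G) [hZ : Z.Normal] (hZr : ∀ a ∈ Z, a ^ r = 1)
    (hH : IsPGroup p H) (hD : IsPGroup p D) (hDH : ∀ g ∈ D, ∃ s ∈ H, s⁻¹ * g ∈ Z) :
    ∃ z ∈ Z, ∀ g ∈ D, z * g * z⁻¹ ∈ H := by
  have hmem : ∀ l ∈ D ⊔ Z, ∃ d ∈ D, ∃ n ∈ Z, d * n = l := by
    intro l hl
    rw [Subgroup.mem_sup_of_normal_right] at hl
    exact hl
  obtain ⟨y, hy, h⟩ := exists_conj hp hr hpr Z (D ⊔ Z) H D le_sup_right hZr hH hD (by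
    intro l hl
    obtain ⟨d, hd, n, hn, rfl⟩ := hmem l hl
    obtain ⟨s, hs, hsd⟩ := hDH d hd
    refine ⟨s, hs, ?_⟩
    have : s⁻¹ * (d * n) = (s⁻¹ * d) * n := by group
    rw [this]
    exact Z.mul_mem hsd hn) (by
    intro l hl
    obtain ⟨d, hd, n, hn, rfl⟩ := hmem l hl
    refine ⟨d, hd, ?_⟩
    rw [inv_mul_cancel_left]
    exact hn)
  exact ⟨y, hy, fun g hg => (h g ⟨hg, (le_sup_left : D ≤ D ⊔ Z) hg⟩).1⟩

theorem step {G : Type u} [Group G] [Finite G] {r : ℕ} (hr : r.Prime) (Z : Subgroup G)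
    [hZ : Z.Normal] (hZc : ∀ a ∈ Z, ∀ b ∈ Z, a * b = b * a) (hZr : ∀ a ∈ Z, a ^ r = 1)
    (H : ∀ p : Nat.Primes, Sylow (p : ℕ) G) (x₁ : G) (y : Nat.Primes → G)
    (hcomm : ∀ p q : Nat.Primes, p ≠ q → ∀ a ∈ H p, ∀ b ∈ H q,
      (∃ s ∈ H p, s⁻¹ * (x₁ * a * x₁⁻¹) ∈ Z) → (∃ s ∈ H q, s⁻¹ * (x₁ * b * x₁⁻¹) ∈ Z) →
      ∀ n ∈ Z, ((b * a)⁻¹ * (a * b)) * n = n * ((b * a)⁻¹ * (a * b)))
    (hsub : ∀ p : Nat.Primes, ∀ a ∈ H p, (∃ s ∈ H p, s⁻¹ * (x₁ * a * x₁⁻¹) ∈ Z) →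
      ∃ s ∈ H p, s⁻¹ * (y p * a * (y p)⁻¹) ∈ Z) :
    ∃ z ∈ Z, ∀ p : Nat.Primes, ∀ a ∈ H p, (x₁ * z) * a * (x₁ * z)⁻¹ ∈ H p →
      y p * a * (y p)⁻¹ ∈ H p := by
  classical
  set π : G →* G ⧸ Z := QuotientGroup.mk' Z with hπ
  have hker : ∀ g : G, π g = 1 ↔ g ∈ Z := by
    intro g
    rw [hπ, QuotientGroup.mk'_apply]
    exact QuotientGroup.eq_one_iff g
  let D : Nat.Primes → Subgroup G := fun p =>
    (H p : Subgroup G) ⊓ (((H p : Subgroup G).map π).comap (π.comp (MulAut.conj x₁).toMonoidHom))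
  have hDm : ∀ p a, a ∈ D p ↔ a ∈ H p ∧ ∃ s ∈ H p, s⁻¹ * (x₁ * a * x₁⁻¹) ∈ Z := by
    intro p a
    change a ∈ (H p : Subgroup G) ⊓ _ ↔ _
    rw [Subgroup.mem_inf, Subgroup.mem_comap]
    change a ∈ H p ∧ π (x₁ * a * x₁⁻¹) ∈ (H p : Subgroup G).map π ↔ _
    rw [Subgroup.mem_map]
    refine and_congr_right fun _ => ?_
    constructor
    · rintro ⟨s, hs, h⟩
      refine ⟨s, hs, ?_⟩
      rw [← hker, map_mul, map_inv, inv_mul_eq_one]
      exact h
    · rintro ⟨s, hs, h⟩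
      refine ⟨s, hs, ?_⟩
      rw [← hker, map_mul, map_inv, inv_mul_eq_one] at h
      exact h
  have hDp : ∀ p : Nat.Primes, IsPGroup (p : ℕ) (D p) := fun p =>
    (H p).isPGroup'.to_le inf_le_left
  have hcj : ∀ p : Nat.Primes, (p : ℕ) ≠ r → ∀ u : G, (∀ a ∈ D p, ∃ s ∈ H p, s⁻¹ * (u * a * u⁻¹) ∈ Z) →
      ∃ z ∈ Z, ∀ a ∈ D p, (u * z) * a * (u * z)⁻¹ ∈ H p := by
    intro p hpr u hu
    obtain ⟨z, hz, h⟩ := conj_into p.2 hr hpr Z (H p : Subgroup G)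
      ((D p).map (MulAut.conj u).toMonoidHom) hZr (H p).isPGroup' ((hDp p).map _) (by
        rintro _ ⟨a, ha, rfl⟩
        exact hu a ha)
    refine ⟨u⁻¹ * z * u, ?_, ?_⟩
    · have := hZ.conj_mem z hz u⁻¹
      simpa using this
    · intro a ha
      have h1 := h (u * a * u⁻¹) ⟨a, ha, rfl⟩
      have e : u * (u⁻¹ * z * u) * a * (u * (u⁻¹ * z * u))⁻¹ = z * (u * a * u⁻¹) * z⁻¹ := by group
      rw [e]
      exact h1
  have ex1 : ∀ p : Nat.Primes, ∃ z ∈ Z, (p : ℕ) ≠ r → ∀ a ∈ D p, (x₁ * z) * a * (x₁ * z)⁻¹ ∈ H p := by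
    intro p
    by_cases hpr : (p : ℕ) = r
    · exact ⟨1, Z.one_mem, fun h => absurd hpr h⟩
    · obtain ⟨z, hz, h⟩ := hcj p hpr x₁ (fun a ha => ((hDm p a).1 ha).2)
      exact ⟨z, hz, fun _ => h⟩
  have ex2 : ∀ p : Nat.Primes, ∃ z ∈ Z, (p : ℕ) ≠ r → ∀ a ∈ D p, (y p * z) * a * (y p * z)⁻¹ ∈ H p := by
    intro p
    by_cases hpr : (p : ℕ) = r
    · exact ⟨1, Z.one_mem, fun h => absurd hpr h⟩
    · obtain ⟨z, hz, h⟩ := hcj p hpr (y p)
        (fun a ha => hsub p a ((hDm p a).1 ha).1 ((hDm p a).1 ha).2)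
      exact ⟨z, hz, fun _ => h⟩
  choose z₁ hz₁ hz₁' using ex1
  choose z₂ hz₂ hz₂' using ex2
  have hDN : ∀ p : Nat.Primes, (p : ℕ) ≠ r → ∀ g ∈ H p, g ∈ Z → g = 1 := by
    intro p hpr g hg hgZ
    obtain ⟨m, hm⟩ := pow_card_one (H p).isPGroup' hg
    exact eq_one_of_coprime p.2 hr hpr hm (hZr g hgZ)
  let ι : Type := {q // q ∈ (Nat.card G).primeFactors.erase r}
  have hq : ∀ i : ι, i.1.Prime ∧ i.1 ∣ Nat.card G ∧ i.1 ≠ r := by
    intro i
    have h := i.2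
    rw [Finset.mem_erase, Nat.mem_primeFactors] at h
    exact ⟨h.2.1, h.2.2.1, h.1⟩
  let P : ι → Nat.Primes := fun i => ⟨i.1, (hq i).1⟩
  obtain ⟨f, hfZ, hf⟩ := lemmaA_conj hr Z hZc hZr (fun i : ι => i.1) (fun i => (hq i).1)
    (fun i => (hq i).2.2) Subtype.val_injective (fun i => D (P i)) (fun i => hDp (P i)) (by
      intro i j hij a ha b hb
      have hne : P i ≠ P j := by
        intro h
        apply hij
        apply Subtype.ext
        exact congrArg (fun q : Nat.Primes => (q : ℕ)) h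
      exact hcomm (P i) (P j) hne a ((hDm _ a).1 ha).1 b ((hDm _ b).1 hb).1 ((hDm _ a).1 ha).2
        ((hDm _ b).1 hb).2) (fun i => (z₁ (P i))⁻¹) (fun i => z₂ (P i))
      (fun i => Z.inv_mem (hz₁ _)) (fun i => hz₂ _)
  refine ⟨f, hfZ, ?_⟩
  intro p a ha hxa
  have hπf : π f = 1 := (hker f).2 hfZ
  have haD : a ∈ D p := by
    rw [hDm]
    refine ⟨ha, _, hxa, ?_⟩
    rw [← hker]
    simp only [map_mul, map_inv, hπf]
    group
  by_cases hpr : (p : ℕ) = r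
  · have hZH : Z ≤ (H p : Subgroup G) := by
      have hNp : IsPGroup (p : ℕ) Z := by
        intro a
        refine ⟨1, ?_⟩
        rw [pow_one, hpr]
        exact Subtype.ext (by exact_mod_cast hZr a a.2)
      exact hNp.le_sylow_of_normal (H p)
    obtain ⟨s, hs, hsy⟩ := hsub p a ha ((hDm p a).1 haD).2
    have := (H p : Subgroup G).mul_mem hs (hZH hsy)
    have e : s * (s⁻¹ * (y p * a * (y p)⁻¹)) = y p * a * (y p)⁻¹ := by group
    rw [e] at this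
    exact this
  by_cases hpd : (p : ℕ) ∣ Nat.card G
  swap
  · have hbot : (H p : Subgroup G) = ⊥ := by
      have := Fact.mk p.2
      rw [← Subgroup.card_eq_one]
      obtain ⟨m, hm⟩ := IsPGroup.iff_card.mp (H p).isPGroup'
      rw [hm]
      rcases Nat.eq_zero_or_pos m with h0 | h0
      · rw [h0, pow_zero]
      · exfalso
        apply hpd
        have h1 : Nat.card (H p : Subgroup G) ∣ Nat.card G := Subgroup.card_subgroup_dvd_card _
        rw [hm] at h1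
        exact dvd_trans (dvd_pow_self _ h0.ne') h1
    have ha1 : a = 1 := by
      have : a ∈ (H p : Subgroup G) := ha
      rw [hbot, Subgroup.mem_bot] at this
      exact this
    rw [ha1, mul_one, mul_inv_cancel]
    exact (H p : Subgroup G).one_mem
  have hpι : (p : ℕ) ∈ (Nat.card G).primeFactors.erase r := by
    rw [Finset.mem_erase, Nat.mem_primeFactors]
    exact ⟨hpr, p.2, hpd, Nat.card_pos.ne'⟩
  have hw : a * ((z₁ p)⁻¹ * f) = ((z₁ p)⁻¹ * f) * a := by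
    set w := (z₁ p)⁻¹ * f with hwdef
    have hwZ : w ∈ Z := Z.mul_mem (Z.inv_mem (hz₁ p)) hfZ
    have h1 := hz₁' p hpr a haD
    have h2 : (x₁ * z₁ p) * (w * a * w⁻¹) * (x₁ * z₁ p)⁻¹ ∈ H p := by
      have e : (x₁ * z₁ p) * (w * a * w⁻¹) * (x₁ * z₁ p)⁻¹ = (x₁ * f) * a * (x₁ * f)⁻¹ := by
        rw [hwdef]; group
      rw [e]
      exact hxa
    have h3 : (x₁ * z₁ p) * (w * a * w⁻¹ * a⁻¹) * (x₁ * z₁ p)⁻¹ ∈ H p := by
      have h4 := (H p : Subgroup G).mul_mem h2 ((H p : Subgroup G).inv_mem h1)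
      have e : (x₁ * z₁ p) * (w * a * w⁻¹) * (x₁ * z₁ p)⁻¹ * ((x₁ * z₁ p) * a * (x₁ * z₁ p)⁻¹)⁻¹ =
        (x₁ * z₁ p) * (w * a * w⁻¹ * a⁻¹) * (x₁ * z₁ p)⁻¹ := by group
      rw [e] at h4
      exact h4
    have h5 : w * a * w⁻¹ * a⁻¹ ∈ Z := by
      have h6 : a * w⁻¹ * a⁻¹ ∈ Z := hZ.conj_mem _ (Z.inv_mem hwZ) a
      have := Z.mul_mem hwZ h6
      have e : w * (a * w⁻¹ * a⁻¹) = w * a * w⁻¹ * a⁻¹ := by group
      rw [e] at this
      exact this
    have h7 := hDN p hpr _ h3 (hZ.conj_mem _ h5 _)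
    have h8 : w * a * w⁻¹ * a⁻¹ = 1 := by
      have h9 : w * a * w⁻¹ * a⁻¹ = (x₁ * z₁ p)⁻¹ * ((x₁ * z₁ p) * (w * a * w⁻¹ * a⁻¹) * (x₁ * z₁ p)⁻¹) * (x₁ * z₁ p) := by
        group
      rw [h9, h7]
      group
    have h10 : w * a = a * w := by
      have : w * a = (w * a * w⁻¹ * a⁻¹) * (a * w) := by group
      rw [this, h8, one_mul]
    exact h10.symm
  have h11 : a * z₂ p = z₂ p * a := hf ⟨p, hpι⟩ a haD hw
  have h12 := hz₂' p hpr a haD
  have e : (y p * z₂ p) * a * (y p * z₂ p)⁻¹ = y p * (z₂ p * a * (z₂ p)⁻¹) * (y p)⁻¹ := by group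
  rw [e, ← h11] at h12
  have e2 : a * z₂ p * (z₂ p)⁻¹ = a := by group
  rw [e2] at h12
  exact h12

end Pool.H45.SY
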