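import Pool.Agent.H45.SY.GR1

/-!
Group part 2: induction over a nilpotent normal subgroup.
-/

set_option autoImplicit false

namespace Pool.H45.SY

open Pool.Agent.H49.Syl

universe u

theorem ind_aux : ∀ (n : ℕ) (G : Type u) [Group G] [Finite G], Nat.card G = n →
    ∀ (F : Subgroup G) [F.Normal], Group.IsNilpotent F →
    ∀ (H : ∀ p : Nat.Primes, Sylow (p : ℕ) G) (x₀ : G),
    (∀ p q : Nat.Primes, p ≠ q → ∀ a ∈ H p, ∀ b ∈ H q,
      (∃ s ∈ H p, s⁻¹ * (x₀ * a * x₀⁻¹) ∈ F) → (∃ s ∈ H q, s⁻¹ * (x₀ * b * x₀⁻¹) ∈ F) →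
      (b * a)⁻¹ * (a * b) ∈ F) →
    (∀ p : Nat.Primes, ∀ a ∈ H p, (∃ s ∈ H p, s⁻¹ * (x₀ * a * x₀⁻¹) ∈ F) →
      ∀ g : G, ∃ s ∈ H p, s⁻¹ * (g * a * g⁻¹) ∈ F) →
    ∀ y : Nat.Primes → G, ∃ f ∈ F, ∃ h : Nat.Primes → G, (∀ p, h p ∈ H p) ∧
      ∀ p : Nat.Primes, ∀ a ∈ H p, (x₀ * f) * a * (x₀ * f)⁻¹ ∈ H p →
        (y p * h p) * a * (y p * h p)⁻¹ ∈ H p := by
  intro n
  induction n using Nat.strong_induction_on with
  | _ n ih =>
  intro G _ _ hn F hFn hFnil H x₀ hcomm hmin y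
  classical
  by_cases hF : F = ⊥
  · refine ⟨1, F.one_mem, fun _ => 1, fun p => (H p).one_mem, ?_⟩
    intro p a ha hxa
    obtain ⟨s, hs, hsy⟩ := hmin p a ha ⟨_, hxa, by
      rw [mul_one, inv_mul_cancel]
      exact F.one_mem⟩ (y p)
    rw [hF, Subgroup.mem_bot, inv_mul_eq_one] at hsy
    rw [mul_one, ← hsy]
    exact hs
  -- the subgroup Z
  have hnt : Nontrivial F := (Subgroup.nontrivial_iff_ne_bot F).2 hF
  have hnil' : Group.IsNilpotent F := hFnil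
  have hcen : Subgroup.center F ≠ ⊥ := Group.IsNilpotent.center_ne_bot F
  have hcard1 : Nat.card (Subgroup.center F) ≠ 1 := fun h => hcen (Subgroup.card_eq_one.1 h)
  obtain ⟨r, hr, hrd⟩ := Nat.exists_prime_and_dvd hcard1
  have := Fact.mk hr
  obtain ⟨c, hc⟩ := exists_prime_orderOf_dvd_card' r hrd
  let Z : Subgroup G :=
    { carrier := {a | a ∈ F ∧ (∀ b ∈ F, a * b = b * a) ∧ a ^ r = 1}
      one_mem' := ⟨F.one_mem, fun b _ => by rw [one_mul, mul_one], one_pow r⟩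
      mul_mem' := by
        rintro a b ⟨ha, ha', ha''⟩ ⟨hb, hb', hb''⟩
        refine ⟨F.mul_mem ha hb, ?_, ?_⟩
        · intro d hd
          rw [mul_assoc, hb' d hd, ← mul_assoc, ha' d hd, mul_assoc]
        · have : Commute a b := ha' b hb
          rw [this.mul_pow, ha'', hb'', one_mul]
      inv_mem' := by
        rintro a ⟨ha, ha', ha''⟩
        refine ⟨F.inv_mem ha, ?_, ?_⟩
        · intro b hb
          have : Commute a b := ha' b hb
          exact this.inv_left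
        · rw [inv_pow, ha'', inv_one] }
  have hZm : ∀ a, a ∈ Z ↔ a ∈ F ∧ (∀ b ∈ F, a * b = b * a) ∧ a ^ r = 1 := fun a => Iff.rfl
  have hZF : Z ≤ F := fun a ha => ha.1
  have hZn : Z.Normal := by
    constructor
    rintro a ⟨ha, ha', ha''⟩ g
    refine ⟨hFn.conj_mem a ha g, ?_, ?_⟩
    · intro b hb
      have h1 := ha' (g⁻¹ * b * g) (by
        have := hFn.conj_mem b hb g⁻¹
        simpa using this)
      calc g * a * g⁻¹ * b = g * (a * (g⁻¹ * b * g)) * g⁻¹ := by group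
        _ = g * (g⁻¹ * b * g * a) * g⁻¹ := by rw [h1]
        _ = b * (g * a * g⁻¹) := by group
    · rw [conj_pow, ha'', mul_one, mul_inv_cancel]
  have hZ0 : Z ≠ ⊥ := by
    intro h
    have h1 : ((c : F) : G) ∈ Z := by
      refine ⟨(c : F).2, ?_, ?_⟩
      · intro b hb
        have := (Subgroup.mem_center_iff.1 c.2) ⟨b, hb⟩
        exact (congrArg Subtype.val this).symm
      · have := pow_orderOf_eq_one c
        rw [hc] at this
        have h2 := congrArg Subtype.val (congrArg Subtype.val this)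
        simpa using h2
    rw [h, Subgroup.mem_bot] at h1
    have h2 : c = 1 := by
      apply Subtype.ext
      apply Subtype.ext
      exact h1
    rw [h2, orderOf_one] at hc
    exact hr.one_lt.ne hc
  -- the quotient
  have hcard : Nat.card G = Nat.card (G ⧸ Z) * Nat.card Z := Subgroup.card_eq_card_quotient_mul_card_subgroup Z
  have hZcard : 1 < Nat.card Z := by
    have : Nontrivial Z := (Subgroup.nontrivial_iff_ne_bot Z).mpr hZ0
    exact Finite.one_lt_card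
  have hKlt : Nat.card (G ⧸ Z) < n := by
    rw [← hn, hcard]
    have : 0 < Nat.card (G ⧸ Z) := Nat.card_pos
    nlinarith
  have hsurj : Function.Surjective (QuotientGroup.mk' Z) := QuotientGroup.mk'_surjective Z
  let Hb : ∀ p : Nat.Primes, Sylow (p : ℕ) (G ⧸ Z) := fun p =>
    have := Fact.mk p.2
    (H p).mapSurjective hsurj
  have hHb : ∀ p : Nat.Primes, (Hb p : Subgroup (G ⧸ Z)) =
      (H p : Subgroup G).map (QuotientGroup.mk' Z) := by
    intro p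
    have := Fact.mk p.2
    exact Sylow.coe_mapSurjective hsurj (H p)
  set π : G →* G ⧸ Z := QuotientGroup.mk' Z with hπ
  have hker : ∀ g : G, π g = 1 ↔ g ∈ Z := by
    intro g
    rw [hπ, QuotientGroup.mk'_apply]
    exact QuotientGroup.eq_one_iff g
  have hHbm : ∀ p (g : G), π g ∈ Hb p ↔ ∃ s ∈ H p, s⁻¹ * g ∈ Z := by
    intro p g
    change π g ∈ (Hb p : Subgroup (G ⧸ Z)) ↔ _
    rw [hHb, Subgroup.mem_map]
    constructor
    · rintro ⟨s, hs, hsg⟩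
      refine ⟨s, hs, ?_⟩
      rw [← hker, map_mul, map_inv, inv_mul_eq_one]
      exact hsg
    · rintro ⟨s, hs, hsg⟩
      refine ⟨s, hs, ?_⟩
      rw [← hker, map_mul, map_inv, inv_mul_eq_one] at hsg
      exact hsg
  have hHbl : ∀ p (k : G ⧸ Z), k ∈ Hb p → ∃ a ∈ H p, π a = k := by
    intro p k hk
    have : k ∈ (Hb p : Subgroup (G ⧸ Z)) := hk
    rw [hHb, Subgroup.mem_map] at this
    exact this
  have hFb : ∀ g : G, π g ∈ F.map π ↔ g ∈ F := by
    intro g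
    rw [Subgroup.mem_map]
    constructor
    · rintro ⟨b, hb, hbg⟩
      have h1 : b⁻¹ * g ∈ Z := by
        rw [← hker, map_mul, map_inv, inv_mul_eq_one]
        exact hbg
      have := F.mul_mem hb (hZF h1)
      rwa [mul_inv_cancel_left] at this
    · intro hg
      exact ⟨g, hg, rfl⟩
  have hFbn : (F.map π).Normal := hFn.map π hsurj
  have hFbnil : Group.IsNilpotent (F.map π) := by
    have : Group.IsNilpotent F := hFnil
    exact Group.nilpotent_of_surjective (π.subgroupMap F) (π.subgroupMap_surjective F)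
  have hexF : ∀ p (g : G), (∃ s ∈ Hb p, s⁻¹ * π g ∈ F.map π) → ∃ s ∈ H p, s⁻¹ * g ∈ F := by
    rintro p g ⟨k, hk, hkg⟩
    obtain ⟨s, hs, rfl⟩ := hHbl p k hk
    refine ⟨s, hs, ?_⟩
    rw [← map_inv, ← map_mul, hFb] at hkg
    exact hkg
  obtain ⟨fb, hfb, hb, hhb, hmain⟩ := ih _ hKlt (G ⧸ Z) rfl (F.map π) hFbnil Hb (π x₀)
    (by
      intro p q hpq a ha b hb h1 h2
      obtain ⟨a', ha', rfl⟩ := hHbl p a ha
      obtain ⟨b', hb', rfl⟩ := hHbl q b hb
      have h3 := hexF p (x₀ * a' * x₀⁻¹) (by simpa only [map_mul, map_inv] using h1)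
      have h4 := hexF q (x₀ * b' * x₀⁻¹) (by simpa only [map_mul, map_inv] using h2)
      have h5 := hcomm p q hpq a' ha' b' hb' h3 h4
      rw [← hFb] at h5
      simpa only [map_mul, map_inv] using h5)
    (by
      intro p a ha h1 g
      obtain ⟨a', ha', rfl⟩ := hHbl p a ha
      obtain ⟨g', rfl⟩ := hsurj g
      have h3 := hexF p (x₀ * a' * x₀⁻¹) (by simpa only [map_mul, map_inv] using h1)
      obtain ⟨s, hs, hsg⟩ := hmin p a' ha' h3 g'
      refine ⟨π s, ?_, ?_⟩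
      · rw [hHbm]
        exact ⟨s, hs, by rw [inv_mul_cancel]; exact Z.one_mem⟩
      · rw [← hFb] at hsg
        simpa only [map_mul, map_inv] using hsg)
    (fun p => π (y p))
  obtain ⟨f₁, hf₁'⟩ := hsurj fb
  have hf₁ : π f₁ = fb := hf₁'
  have hf₁F : f₁ ∈ F := by
    rw [← hFb, hf₁]
    exact hfb
  have hhl : ∀ p, ∃ h ∈ H p, π h = hb p := fun p => hHbl p _ (hhb p)
  choose h₁ hh₁ hh₁' using hhl
  -- passing from x₀ f₁ to x₀ modulo F
  have hpass : ∀ p, ∀ a ∈ H p, (∃ s ∈ H p, s⁻¹ * ((x₀ * f₁) * a * (x₀ * f₁)⁻¹) ∈ Z) →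
      ∃ s ∈ H p, s⁻¹ * (x₀ * a * x₀⁻¹) ∈ F := by
    rintro p a ha ⟨s, hs, hsa⟩
    refine ⟨s, hs, ?_⟩
    have h1 : x₀ * (a * f₁⁻¹ * a⁻¹) * x₀⁻¹ ∈ F := hFn.conj_mem _ (hFn.conj_mem _ (F.inv_mem hf₁F) a) x₀
    have h2 : x₀ * f₁ * x₀⁻¹ ∈ F := hFn.conj_mem _ hf₁F x₀
    have h3 : (x₀ * f₁) * a * (x₀ * f₁)⁻¹ = (x₀ * f₁ * x₀⁻¹) * ((x₀ * (a * f₁⁻¹ * a⁻¹) * x₀⁻¹) * (x₀ * a * x₀⁻¹)) := by
      group
    have h4 := hZF hsa
    rw [h3] at h4
    have h5 : s⁻¹ * (x₀ * a * x₀⁻¹) = (s⁻¹ * (x₀ * f₁ * x₀⁻¹ * (x₀ * (a * f₁⁻¹ * a⁻¹) * x₀⁻¹)) * s)⁻¹ *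
        (s⁻¹ * ((x₀ * f₁ * x₀⁻¹) * ((x₀ * (a * f₁⁻¹ * a⁻¹) * x₀⁻¹) * (x₀ * a * x₀⁻¹)))) := by
      group
    rw [h5]
    refine F.mul_mem (F.inv_mem ?_) h4
    have h6 := hFn.conj_mem _ (F.mul_mem h2 h1) s⁻¹
    simpa using h6
  obtain ⟨z, hz, hzm⟩ := step hr Z (fun a ha b hb => ha.2.1 b hb.1) (fun a ha => ha.2.2) H (x₀ * f₁)
    (fun p => y p * h₁ p)
    (by
      intro p q hpq a ha b hb h1 h2 n hn
      have h3 := hcomm p q hpq a ha b hb (hpass p a ha h1) (hpass q b hb h2)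
      exact (hn.2.1 _ h3).symm)
    (by
      intro p a ha h1
      have h2 := hmain p (π a) ((hHbm p a).2 ⟨a, ha, by rw [inv_mul_cancel]; exact Z.one_mem⟩) (by
        rw [← hf₁]
        have := (hHbm p ((x₀ * f₁) * a * (x₀ * f₁)⁻¹)).2 h1
        simpa only [map_mul, map_inv] using this)
      have h3 : π ((y p * h₁ p) * a * (y p * h₁ p)⁻¹) ∈ Hb p := by
        rw [← hh₁' p] at h2
        simpa only [map_mul, map_inv] using h2
      exact (hHbm p _).1 h3)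
  refine ⟨f₁ * z, F.mul_mem hf₁F (hZF hz), h₁, hh₁, ?_⟩
  intro p a ha hxa
  refine hzm p a ha ?_
  have e : x₀ * f₁ * z = x₀ * (f₁ * z) := mul_assoc _ _ _
  rw [e]
  exact hxa

end Pool.H45.SY
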