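import Pool.Agent.H45.SY.GR2

/-!
Group part 3: nilpotent normal subgroup with a quotient in which simultaneous normal intersections exist.
-/

set_option autoImplicit false

namespace Pool.H45.SY

open Pool.Agent.H49.Syl

universe u

/-- `H ∩ x⁻¹ H x` -/
def itr {G : Type u} [Group G] (H : Subgroup G) (x : G) : Subgroup G :=
  H ⊓ H.map (MulAut.conj x⁻¹).toMonoidHom

theorem mem_itr {G : Type u} [Group G] (H : Subgroup G) (x a : G) :
    a ∈ itr H x ↔ a ∈ H ∧ x * a * x⁻¹ ∈ H := by
  unfold itr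
  rw [Subgroup.mem_inf, mem_conj]

/-- some element gives normal intersections for all primes -/
def Str (K : Type u) [Group K] : Prop :=
  ∀ S : ∀ q : Nat.Primes, Sylow (q : ℕ) K, ∃ z : K, ∀ q, (itr (S q : Subgroup K) z).Normal

theorem str_of_nilpotent (K : Type u) [Group K] [Finite K] (h : Group.IsNilpotent K) : Str K := by
  intro S
  refine ⟨1, fun q => ?_⟩
  have := Fact.mk q.2
  have hn : (S q : Subgroup K).Normal := by
    have h1 := ((Group.isNilpotent_of_finite_tfae (G := K)).out 0 3).1 h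
    exact h1 q this (S q)
  have e : itr (S q : Subgroup K) 1 = (S q : Subgroup K) := by
    ext a
    rw [mem_itr]
    simp
  rw [e]
  exact hn

theorem str_of_odd (K : Type u) [Group K] [Finite K] [Group.IsSolvable K] (h : Odd (Nat.card K)) :
    Str K := fun S => main Pool.Agent.H77.Syl.lemB K h S

theorem main_all (G : Type u) [Group G] [Finite G] (F : Subgroup G) [F.Normal]
    (hF : Group.IsNilpotent F) (hQ : Str (G ⧸ F)) (H : ∀ p : Nat.Primes, Sylow (p : ℕ) G)
    (y : Nat.Primes → G) :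
    ∃ x : G, ∀ p, ∃ h ∈ (H p : Subgroup G), itr (H p : Subgroup G) x ≤ itr (H p : Subgroup G) (y p * h) := by
  classical
  have hsurj : Function.Surjective (QuotientGroup.mk' F) := QuotientGroup.mk'_surjective F
  let Hb : ∀ p : Nat.Primes, Sylow (p : ℕ) (G ⧸ F) := fun p =>
    have := Fact.mk p.2
    (H p).mapSurjective hsurj
  have hHb : ∀ p : Nat.Primes, (Hb p : Subgroup (G ⧸ F)) =
      (H p : Subgroup G).map (QuotientGroup.mk' F) := by
    intro p
    have := Fact.mk p.2
    exact Sylow.coe_mapSurjective hsurj (H p)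
  obtain ⟨k, hk⟩ := hQ Hb
  obtain ⟨x₀, hx₀⟩ := hsurj k
  set π : G →* G ⧸ F := QuotientGroup.mk' F with hπ
  have hker : ∀ g : G, π g = 1 ↔ g ∈ F := by
    intro g
    rw [hπ, QuotientGroup.mk'_apply]
    exact QuotientGroup.eq_one_iff g
  have hHbm : ∀ p (g : G), π g ∈ (Hb p : Subgroup (G ⧸ F)) ↔ ∃ s ∈ H p, s⁻¹ * g ∈ F := by
    intro p g
    rw [hHb, Subgroup.mem_map]
    constructor
    · rintro ⟨s, hs, hsg⟩
      refine ⟨s, hs, ?_⟩
      rw [← hker, map_mul, map_inv, inv_mul_eq_one]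
      exact hsg
    · rintro ⟨s, hs, hsg⟩
      refine ⟨s, hs, ?_⟩
      rw [← hker, map_mul, map_inv, inv_mul_eq_one] at hsg
      exact hsg
  have hDb : ∀ p, ∀ a ∈ H p, (∃ s ∈ H p, s⁻¹ * (x₀ * a * x₀⁻¹) ∈ F) →
      π a ∈ itr (Hb p : Subgroup (G ⧸ F)) k := by
    intro p a ha h1
    rw [mem_itr]
    refine ⟨(hHbm p a).2 ⟨a, ha, by rw [inv_mul_cancel]; exact F.one_mem⟩, ?_⟩
    have h2 := (hHbm p _).2 h1
    rw [← hx₀]
    simpa only [map_mul, map_inv] using h2
  obtain ⟨f, -, h, hh, hmain⟩ := ind_aux (Nat.card G) G rfl F hF H x₀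
    (by
      intro p q hpq a ha b hb h1 h2
      have h3 := hDb p a ha h1
      have h4 := hDb q b hb h2
      have hne : (p : ℕ) ≠ (q : ℕ) := fun h => hpq (Subtype.ext h)
      have hdis : Disjoint (itr (Hb p : Subgroup (G ⧸ F)) k) (itr (Hb q : Subgroup (G ⧸ F)) k) := by
        have := Fact.mk p.2
        have := Fact.mk q.2
        apply IsPGroup.disjoint_of_ne (p : ℕ) (q : ℕ) hne
        · exact IsPGroup.to_le (Hb p).isPGroup' inf_le_left
        · exact IsPGroup.to_le (Hb q).isPGroup' inf_le_left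
      have hc : Commute (π a) (π b) :=
        Subgroup.commute_of_normal_of_disjoint _ _ (hk p) (hk q) hdis _ _ h3 h4
      rw [← hker, map_mul, map_inv, map_mul, map_mul, inv_mul_eq_one]
      exact hc.eq.symm)
    (by
      intro p a ha h1 g
      have h3 := (hk p).conj_mem _ (hDb p a ha h1) (π g)
      rw [mem_itr] at h3
      have h4 : π (g * a * g⁻¹) ∈ (Hb p : Subgroup (G ⧸ F)) := by
        simpa only [map_mul, map_inv] using h3.1
      exact (hHbm p _).1 h4) y
  refine ⟨x₀ * f, fun p => ⟨h p, hh p, ?_⟩⟩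
  intro a ha
  rw [mem_itr] at ha ⊢
  exact ⟨ha.1, hmain p a ha.1 ha.2⟩

/-- conjugating the second argument -/
theorem itr_mul {G : Type u} [Group G] (H : Subgroup G) (y h : G) (hh : h ∈ H) :
    itr H (y * h) = (itr H y).map (MulAut.conj h⁻¹).toMonoidHom := by
  ext a
  rw [mem_conj, mem_itr, mem_itr]
  have e : y * (h * a * h⁻¹) * y⁻¹ = y * h * a * (y * h)⁻¹ := by group
  rw [e]
  refine and_congr_left fun _ => ?_
  constructor
  · intro ha
    exact H.mul_mem (H.mul_mem hh ha) (H.inv_mem hh)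
  · intro ha
    have := H.mul_mem (H.mul_mem (H.inv_mem hh) ha) hh
    have e : h⁻¹ * (h * a * h⁻¹) * h = a := by group
    rwa [e] at this

theorem card_itr_mul {G : Type u} [Group G] (H : Subgroup G) (y h : G) (hh : h ∈ H) :
    Nat.card (itr H (y * h)) = Nat.card (itr H y) := by
  rw [itr_mul H y h hh]
  exact Nat.card_congr ((itr H y).equivMapOfInjective _ (MulAut.conj h⁻¹).injective).symm.toEquiv

theorem family (G : Type u) [Group G] {ι : Type*} (p : ι → ℕ) (hinj : Function.Injective p)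
    (H : ∀ i, Sylow (p i) G) (y : ι → G) :
    ∃ (H' : ∀ q : Nat.Primes, Sylow (q : ℕ) G) (y' : Nat.Primes → G), ∀ (i : ι) (hq : (p i).Prime),
      (H' ⟨p i, hq⟩ : Subgroup G) = (H i : Subgroup G) ∧ y' ⟨p i, hq⟩ = y i := by
  classical
  have key : ∀ q : Nat.Primes, ∃ (S : Sylow (q : ℕ) G) (g : G), ∀ i, p i = (q : ℕ) →
      (S : Subgroup G) = (H i : Subgroup G) ∧ g = y i := by
    intro q
    by_cases h : ∃ i, p i = (q : ℕ)
    · obtain ⟨i, hi⟩ := h
      obtain ⟨q, hq⟩ := q
      simp only at hi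
      subst hi
      refine ⟨H i, y i, ?_⟩
      intro j hj
      have : j = i := hinj hj
      subst this
      exact ⟨rfl, rfl⟩
    · refine ⟨Classical.arbitrary _, 1, ?_⟩
      intro i hi
      exact absurd ⟨i, hi⟩ h
  choose S g hS using key
  exact ⟨S, g, fun i hq => hS ⟨p i, hq⟩ i rfl⟩

end Pool.H45.SY
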