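import Pool.Agent.H77.Syl.LB1

/-!
Module lemma with targets, part 1: definitions and restriction to submodules.
The family of groups `P i` (`p i`-groups, commuting) acts on `V`. For `p i ≠ 2` regular vectors are wanted, for
`p i = 2` a vector whose stabiliser is contained in the stabiliser of a given target.
-/

set_option autoImplicit false

namespace Pool.H45.SY

open Pool.Agent.H77.Syl Finset

section defs

variable {F : Type*} [Field F] {V : Type*} [AddCommGroup V] [Module F V] {ι : Type*}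

/-- no nonzero vector of `U` is fixed by all but one of the groups -/
def RichOn (Q : ι → Subgroup (Module.End F V)ˣ) (U : Submodule F V) : Prop :=
  ∀ i, ∀ v ∈ U, (∀ j, j ≠ i → ∀ g ∈ Q j, (g : Module.End F V) v = v) → v = 0

/-- The conclusion of the module lemma with targets for the prime 2. -/
def GoodT (p : ι → ℕ) (P : ι → Subgroup (Module.End F V)ˣ) : Prop :=
  ∀ (s t : ι → V) (i₀ : ι) (w : V), ∃ f : V,
    (∀ i, p i ≠ 2 → ∀ g ∈ P i, (g : Module.End F V) (f + s i) = f + s i → g = 1) ∧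
    (∀ i, p i = 2 → ∀ g ∈ P i, (g : Module.End F V) (f + s i) = f + s i →
      (g : Module.End F V) (t i) = t i) ∧
    (p i₀ ≠ 2 → ∀ g ∈ P i₀, (g : Module.End F V) w ≠ f + s i₀)

/-- conclusion of the induction hypothesis on a submodule -/
def SubGoodT (p : ι → ℕ) (U : Submodule F V) : Prop :=
  ∀ (Q : ι → Subgroup (Module.End F V)ˣ) (_ : ∀ i, IsPGroup (p i) (Q i))
    (_ : ∀ i, ∀ g ∈ Q i, ∀ v ∈ U, (g : Module.End F V) v ∈ U)
    (_ : ∀ i j, i ≠ j → ∀ g ∈ Q i, ∀ h ∈ Q j, g * h = h * g)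
    (_ : Odd (Nat.card F) ∨ RichOn Q U)
    (s t : ι → V) (_ : ∀ i, s i ∈ U) (_ : ∀ i, t i ∈ U) (i₀ : ι) (w : V) (_ : w ∈ U),
    ∃ f ∈ U, (∀ i, p i ≠ 2 → ∀ g ∈ Q i, (g : Module.End F V) (f + s i) = f + s i →
        ∀ v ∈ U, (g : Module.End F V) v = v) ∧
      (∀ i, p i = 2 → ∀ g ∈ Q i, (g : Module.End F V) (f + s i) = f + s i →
        (g : Module.End F V) (t i) = t i) ∧
      (p i₀ ≠ 2 → ∀ g ∈ Q i₀, (g : Module.End F V) w ≠ f + s i₀)

theorem transferT (p : ι → ℕ) (U : Submodule F V)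
    (hU : ∀ P : ι → Subgroup (Module.End F ↥U)ˣ, (∀ i, IsPGroup (p i) (P i)) →
      (∀ i j, i ≠ j → ∀ g ∈ P i, ∀ h ∈ P j, g * h = h * g) →
      (Odd (Nat.card F) ∨ RichOn P ⊤) → GoodT p P) : SubGoodT p U := by
  classical
  intro Q hQ hinv hcomm hrich s t hs ht i₀ w hw
  set φ : ∀ i, ↥(Q i) →* (Module.End F ↥U)ˣ := fun i => (resHom (Q i) U (hinv i)).toHomUnits with hφ
  have hφv : ∀ i (g : ↥(Q i)) (v : ↥U), ((((φ i g : (Module.End F ↥U)ˣ) : Module.End F ↥U) v : ↥U) : V)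
      = (g.1 : Module.End F V) v := by
    intro i g v; rfl
  obtain ⟨f, hf1, hf2, hf3⟩ := hU (fun i => (φ i).range)
    (by
      intro i
      exact (hQ i).of_surjective (φ i).rangeRestrict (φ i).rangeRestrict_surjective)
    (by
      rintro i j hij _ ⟨g, rfl⟩ _ ⟨h, rfl⟩
      have := hcomm i j hij g.1 g.2 h.1 h.2
      apply Units.ext
      ext v
      have h1 : (((g.1 * h.1 : (Module.End F V)ˣ) : Module.End F V)) v
        = ((h.1 * g.1 : (Module.End F V)ˣ) : Module.End F V) v := by rw [this]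
      rw [Units.val_mul, Units.val_mul, Module.End.mul_apply, Module.End.mul_apply, hφv, hφv, hφv, hφv]
      exact h1)
    (by
      rcases hrich with h | h
      · exact Or.inl h
      · right
        intro i v _ hv
        apply Subtype.ext
        refine h i v.1 v.2 ?_
        intro j hj g hg
        have := hv j hj (φ j ⟨g, hg⟩) ⟨_, rfl⟩
        have h2 := hφv j ⟨g, hg⟩ v
        rw [this] at h2
        exact h2.symm)
    (fun i => ⟨s i, hs i⟩) (fun i => ⟨t i, ht i⟩) i₀ ⟨w, hw⟩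
  refine ⟨f.1, f.2, ?_, ?_, ?_⟩
  · intro i hi g hg hgf v hv
    have := hf1 i hi (φ i ⟨g, hg⟩) ⟨_, rfl⟩ (by
      apply Subtype.ext
      rw [hφv]
      simpa using hgf)
    have h2 := hφv i ⟨g, hg⟩ ⟨v, hv⟩
    rw [this] at h2
    simpa using h2.symm
  · intro i hi g hg hgf
    have := hf2 i hi (φ i ⟨g, hg⟩) ⟨_, rfl⟩ (by
      apply Subtype.ext
      rw [hφv]
      simpa using hgf)
    have h2 := hφv i ⟨g, hg⟩ ⟨t i, ht i⟩
    rw [this] at h2
    exact h2.symm
  · intro hi g hg hgw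
    refine hf3 hi (φ i₀ ⟨g, hg⟩) ⟨_, rfl⟩ ?_
    apply Subtype.ext
    rw [hφv]
    simpa using hgw

end defs

end Pool.H45.SY
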