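import Pool.Agent.H45.SY.LA1
import Pool.Agent.H77.Syl.LB2

/-!
Module lemma with targets, part 2: the base case by counting.
-/

set_option autoImplicit false

namespace Pool.H45.SY

open Pool.Agent.H77.Syl Finset

section free

variable {F : Type*} [Field F] {V : Type*} [AddCommGroup V] [Module F V]

theorem card_dvd_of_free_set [Finite V] (Q : Subgroup (Module.End F V)ˣ) (T : Set V)
    (hinv : ∀ g ∈ Q, ∀ v ∈ T, (g : Module.End F V) v ∈ T)
    (hfree : ∀ g ∈ Q, ∀ v ∈ T, (g : Module.End F V) v = v → g = 1) :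
    Nat.card ↥Q ∣ Nat.card ↥T := by
  classical
  let inst : MulAction ↥Q ↥T :=
    { smul := fun g v => ⟨(g.1 : Module.End F V) v.1, hinv g.1 g.2 v.1 v.2⟩
      one_smul := by
        intro v
        apply Subtype.ext
        change (((1 : ↥Q).1 : (Module.End F V)ˣ) : Module.End F V) v.1 = v.1
        simp
      mul_smul := by
        intro g h v
        apply Subtype.ext
        change (((g * h).1 : (Module.End F V)ˣ) : Module.End F V) v.1 = _
        rw [Subgroup.coe_mul, Units.val_mul, Module.End.mul_apply]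
        rfl }
  have hst : ∀ b : ↥T, MulAction.stabilizer ↥Q b = ⊥ := by
    intro b
    rw [eq_bot_iff]
    intro g hg
    rw [MulAction.mem_stabilizer_iff] at hg
    rw [Subgroup.mem_bot]
    apply Subtype.ext
    exact hfree g.1 g.2 b.1 b.2 (congrArg Subtype.val hg)
  have e := MulAction.selfEquivOrbitsQuotientProd hst
  rw [Nat.card_congr e, Nat.card_prod]
  exact Dvd.intro_left _ rfl

omit [Module F V] in
theorem neg_fix [Finite V] (hV : Odd (Nat.card V)) (v : V) (h : -v = v) : v = 0 := by
  have h1 : 2 • v = 0 := by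
    rw [two_nsmul]
    nth_rewrite 1 [← h]
    exact neg_add_cancel v
  have h2 : addOrderOf v ∣ 2 := addOrderOf_dvd_of_nsmul_eq_zero h1
  have h3 : addOrderOf v ∣ Nat.card V := addOrderOf_dvd_natCard v
  have h4 : Nat.Coprime 2 (Nat.card V) := (Nat.coprime_two_left).2 hV
  have h5 : addOrderOf v = 1 := Nat.eq_one_of_dvd_coprimes h4 h2 h3
  exact AddMonoid.addOrderOf_eq_one_iff.1 h5

theorem two_dvd_of_neg (F : Type*) [Field F] {V : Type*} [AddCommGroup V] [Module F V]
    [Finite V] [Nontrivial V] (hV : Odd (Nat.card V)) (T : Set V)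
    (h0 : (0 : V) ∉ T) (hneg : ∀ v ∈ T, -v ∈ T) : 2 ∣ Nat.card ↥T := by
  have hne : (-1 : (Module.End F V)ˣ) ≠ 1 := by
    intro h
    obtain ⟨v, hv⟩ := exists_ne (0 : V)
    apply hv
    apply neg_fix hV
    have h1 := congrArg (fun g : (Module.End F V)ˣ => (g : Module.End F V) v) h
    simpa using h1
  have hord : Nat.card ↥(Subgroup.zpowers (-1 : (Module.End F V)ˣ)) = 2 := by
    rw [Nat.card_zpowers]
    exact orderOf_eq_prime (by rw [neg_one_sq]) hne
  have hcase : ∀ g ∈ Subgroup.zpowers (-1 : (Module.End F V)ˣ), g = 1 ∨ g = -1 := by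
    intro g hg
    obtain ⟨k, rfl⟩ := Subgroup.mem_zpowers_iff.1 hg
    rcases Int.even_or_odd k with hk | hk
    · left; exact hk.neg_one_zpow
    · right; exact hk.neg_one_zpow
  rw [← hord]
  refine card_dvd_of_free_set _ T ?_ ?_
  · intro g hg v hv
    rcases hcase g hg with h | h
    · rw [h]; simpa using hv
    · rw [h]; simpa using hneg v hv
  · intro g hg v hv hgv
    rcases hcase g hg with h | h
    · exact h
    · exfalso
      apply h0
      have h1 : v = 0 := by
        apply neg_fix hV
        rw [h] at hgv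
        simpa using hgv
      rwa [h1] at hv

theorem card_ge_of_ne_bot {p : ℕ} (hp : p.Prime) {Q : Type*} [Group Q] {R : Subgroup Q}
    (hR : IsPGroup p R) [Finite R] (h : R ≠ ⊥) : p ≤ Nat.card R := by
  have := Fact.mk hp
  obtain ⟨a, ha⟩ := IsPGroup.iff_card.1 hR
  rw [ha]
  have ha0 : a ≠ 0 := by
    rintro rfl
    apply h
    rw [pow_zero] at ha
    exact (Subgroup.card_eq_one).1 ha
  exact Nat.le_self_pow ha0 p

theorem baseOdd [Finite V] [Nontrivial V] (hV : Odd (Nat.card V)) {ι : Type*} [Finite ι] (p : ι → ℕ)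
    (hp : ∀ i, (p i).Prime) (hpinj : Function.Injective p)
    (P : ι → Subgroup (Module.End F V)ˣ) (hP : ∀ i, IsPGroup (p i) (P i))
    (hcomm : ∀ i j, i ≠ j → ∀ g ∈ P i, ∀ h ∈ P j, g * h = h * g)
    (hfree : ∀ i, p i ≠ 2 → ∀ g ∈ P i, ∀ v : V, v ≠ 0 → (g : Module.End F V) v = v → g = 1) :
    GoodT p P := by
  classical
  intro s t i₀ w
  have := Fintype.ofFinite ι
  have hfE : Finite (Module.End F V) :=
    Finite.of_injective (fun f : Module.End F V => (f : V → V)) DFunLike.coe_injective
  have : ∀ i, Fintype ↥(P i) := fun i => Fintype.ofFinite _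
  have : Fintype V := Fintype.ofFinite _
  have hpow : ∀ i, ∃ a, Nat.card ↥(P i) = (p i) ^ a := by
    intro i
    have := Fact.mk (hp i)
    exact IsPGroup.iff_card.1 (hP i)
  set T : Set V := {y | y ≠ 0 ∧ ∀ i, p i = 2 → ∀ g ∈ P i, (g : Module.End F V) y = y →
    (g : Module.End F V) (t i) = t i} with hT
  have hTne : ∃ y, y ∈ T := by
    by_cases h : ∃ i, p i = 2 ∧ t i ≠ 0
    · obtain ⟨i, hi, hti⟩ := h
      refine ⟨t i, hti, ?_⟩
      intro j hj g hg hgt
      have hij : j = i := hpinj (hj.trans hi.symm)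
      subst hij
      exact hgt
    · push Not at h
      obtain ⟨v, hv⟩ := exists_ne (0 : V)
      refine ⟨v, hv, ?_⟩
      intro i hi g hg _
      rw [h i hi, map_zero]
  set c : ι → ℕ := fun i => if p i = 2 then 1 else Nat.card ↥(P i) with hc
  have hc1 : ∀ i, 1 ≤ c i := by
    intro i
    rw [hc]
    simp only
    split_ifs
    · exact le_refl 1
    · exact Nat.card_pos
  have hN0 : 0 < Nat.card ↥T := by
    obtain ⟨y, hy⟩ := hTne
    have : Nonempty ↥T := ⟨⟨y, hy⟩⟩
    exact Nat.card_pos
  have h2N : 2 ∣ Nat.card ↥T := by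
    refine two_dvd_of_neg F hV T (fun h => h.1 rfl) ?_
    intro v hv
    refine ⟨neg_ne_zero.2 hv.1, ?_⟩
    intro i hi g hg hgv
    refine hv.2 i hi g hg ?_
    rw [map_neg, neg_inj] at hgv
    exact hgv
  have hprod : (∏ i, c i) ∣ Nat.card ↥T := by
    refine Finset.prod_dvd_of_isRelPrime ?_ ?_
    · intro i _ j _ hij
      obtain ⟨a, ha⟩ := hpow i
      obtain ⟨b, hb⟩ := hpow j
      change IsRelPrime (c i) (c j)
      rw [← Nat.coprime_iff_isRelPrime, hc]
      simp only
      split_ifs
      · exact Nat.coprime_one_left _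
      · exact Nat.coprime_one_left _
      · exact Nat.coprime_one_right _
      · rw [ha, hb]
        exact Nat.Coprime.pow _ _ ((Nat.coprime_primes (hp i) (hp j)).2 (fun h => hij (hpinj h)))
    · intro i _
      rw [hc]
      simp only
      split_ifs with h2
      · exact one_dvd _
      · refine card_dvd_of_free_set (P i) T ?_ ?_
        · intro g hg v hv
          refine ⟨?_, ?_⟩
          · intro h0
            apply hv.1
            have : (((g⁻¹ : (Module.End F V)ˣ) : Module.End F V) * (g : Module.End F V)) v = 0 := by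
              rw [Module.End.mul_apply, h0, map_zero]
            rwa [Units.inv_mul, Module.End.one_apply] at this
          · intro j hj h hh hhv
            refine hv.2 j hj h hh ?_
            have hij : i ≠ j := by
              rintro rfl
              exact h2 hj
            have h3 : (g : Module.End F V) ((h : Module.End F V) v) = (g : Module.End F V) v := by
              rw [← Module.End.mul_apply, ← Units.val_mul, hcomm i j hij g hg h hh, Units.val_mul,
                Module.End.mul_apply, hhv]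
            have h4 : ∀ x : V, ((g⁻¹ : (Module.End F V)ˣ) : Module.End F V) ((g : Module.End F V) x) = x := by
              intro x
              rw [← Module.End.mul_apply, Units.inv_mul, Module.End.one_apply]
            rw [← h4 ((h : Module.End F V) v), h3, h4]
        · intro g hg v hv hgv
          exact hfree i h2 g hg v hv.1 hgv
  have h2prod : 2 * (∏ i, c i) ∣ Nat.card ↥T := by
    refine Nat.Coprime.mul_dvd_of_dvd_of_dvd ?_ h2N hprod
    refine Nat.Coprime.prod_right ?_
    intro i _
    obtain ⟨a, ha⟩ := hpow i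
    rw [hc]
    simp only
    split_ifs with h2
    · exact Nat.coprime_one_right _
    · rw [ha]
      exact Nat.Coprime.pow_right _ ((Nat.coprime_primes Nat.prime_two (hp i)).2 (fun h => h2 h.symm))
  have hle : 2 * (∏ i, c i) ≤ Nat.card ↥T := Nat.le_of_dvd hN0 h2prod
  set J : Finset ι := Finset.univ.filter (fun i => p i ≠ 2 ∧ P i ≠ ⊥) with hJ
  have hm : J.card < ∏ i, c i := by
    calc J.card < 2 ^ J.card := Nat.lt_two_pow_self
      _ = ∏ i ∈ J, 2 := by rw [Finset.prod_const]
      _ ≤ ∏ i ∈ J, c i := by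
        refine Finset.prod_le_prod' ?_
        intro i hi
        have h1 := (Finset.mem_filter.1 hi).2
        rw [hc]
        simp only
        rw [if_neg h1.1]
        exact (hp i).two_le.trans (card_ge_of_ne_bot (hp i) (hP i) h1.2)
      _ ≤ ∏ i, c i := by
        refine Finset.prod_le_prod_of_subset_of_one_le' (Finset.subset_univ _) ?_
        intro i _ _
        exact hc1 i
  have hi0 : c i₀ ≤ ∏ i, c i := by
    have : ∏ i ∈ {i₀}, c i ≤ ∏ i, c i := by
      refine Finset.prod_le_prod_of_subset_of_one_le' (Finset.subset_univ _) ?_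
      intro i _ _
      exact hc1 i
    simpa using this
  obtain ⟨s₂, hs₂⟩ : ∃ s₂ : V, ∀ i, p i = 2 → s i = s₂ := by
    by_cases h : ∃ i, p i = 2
    · obtain ⟨i, hi⟩ := h
      refine ⟨s i, fun j hj => ?_⟩
      rw [hpinj (hj.trans hi.symm)]
    · push Not at h
      exact ⟨0, fun i hi => absurd hi (h i)⟩
  obtain ⟨B₂, hB₂c, hB₂⟩ : ∃ B₂ : Finset V, B₂.card ≤ c i₀ ∧ (p i₀ ≠ 2 → ∀ g ∈ P i₀,
      (g : Module.End F V) w - s i₀ + s₂ ∈ B₂) := by
    by_cases h2 : p i₀ = 2
    · exact ⟨∅, by simp, fun h => absurd h2 h⟩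
    · refine ⟨(Finset.univ : Finset ↥(P i₀)).image fun g => (g.1 : Module.End F V) w - s i₀ + s₂, ?_, ?_⟩
      · refine Finset.card_image_le.trans ?_
        rw [Finset.card_univ, ← Nat.card_eq_fintype_card, hc]
        simp only
        rw [if_neg h2]
      · intro _ g hg
        exact Finset.mem_image.2 ⟨⟨g, hg⟩, Finset.mem_univ _, rfl⟩
  set B : Finset V := (J.image fun i => s₂ - s i) ∪ B₂ with hB
  have hTfin : Finite ↥T := inferInstance
  have hTF : T.Finite := Set.toFinite T
  have hBc : B.card < hTF.toFinset.card := by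
    have h1 : B.card ≤ J.card + c i₀ :=
      (Finset.card_union_le _ _).trans (Nat.add_le_add Finset.card_image_le hB₂c)
    have h2 : hTF.toFinset.card = Nat.card ↥T := by
      rw [← Set.ncard_eq_toFinset_card T hTF]
      rfl
    rw [h2]
    omega
  obtain ⟨y, hy, hyB⟩ := Finset.exists_mem_notMem_of_card_lt_card hBc
  rw [Set.Finite.mem_toFinset] at hy
  rw [hB, Finset.mem_union, not_or] at hyB
  refine ⟨y - s₂, ?_, ?_, ?_⟩
  · intro i hi g hg hgf
    by_cases h0 : y - s₂ + s i = 0
    · have hfi : s₂ - s i = y := by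
        have h1 : y = s₂ - s i := by
          have h2 : y - (s₂ - s i) = 0 := by rw [← h0]; abel
          exact sub_eq_zero.1 h2
        exact h1.symm
      have : P i = ⊥ := by
        by_contra hne
        exact hyB.1 (Finset.mem_image.2 ⟨i, Finset.mem_filter.2 ⟨Finset.mem_univ _, hi, hne⟩, hfi⟩)
      rw [this, Subgroup.mem_bot] at hg
      exact hg
    · exact hfree i hi g hg _ h0 hgf
  · intro i hi g hg hgf
    rw [hs₂ i hi, sub_add_cancel] at hgf
    exact hy.2 i hi g hg hgf
  · intro hi g hg hgw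
    apply hyB.2
    have h1 : y = (g : Module.End F V) w - s i₀ + s₂ := by
      rw [hgw]; abel
    rw [h1]
    exact hB₂ hi g hg

theorem baseEven [Finite V] [Nontrivial V] {ι : Type*} [Finite ι] (p : ι → ℕ)
    (hp : ∀ i, (p i).Prime) (hp2 : ∀ i, p i ≠ 2) (hpinj : Function.Injective p)
    (P : ι → Subgroup (Module.End F V)ˣ) (hP : ∀ i, IsPGroup (p i) (P i))
    (hfree : ∀ i, ∀ g ∈ P i, ∀ v : V, v ≠ 0 → (g : Module.End F V) v = v → g = 1)
    (hrich : RichOn P (⊤ : Submodule F V)) : GoodT p P := by
  classical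
  intro s t i₀ w
  have := Fintype.ofFinite ι
  have hfE : Finite (Module.End F V) :=
    Finite.of_injective (fun f : Module.End F V => (f : V → V)) DFunLike.coe_injective
  have : ∀ i, Fintype ↥(P i) := fun i => Fintype.ofFinite _
  have : Fintype V := Fintype.ofFinite _
  have hpow : ∀ i, ∃ a, Nat.card ↥(P i) = (p i) ^ a := by
    intro i
    have := Fact.mk (hp i)
    exact IsPGroup.iff_card.1 (hP i)
  have hN0 : 0 < Nat.card V - 1 := by
    have := Finite.one_lt_card (α := V)
    omega
  have hprod : (∏ i, Nat.card ↥(P i)) ∣ Nat.card V - 1 := by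
    refine Finset.prod_dvd_of_isRelPrime ?_ ?_
    · intro i _ j _ hij
      obtain ⟨a, ha⟩ := hpow i
      obtain ⟨b, hb⟩ := hpow j
      change IsRelPrime (Nat.card ↥(P i)) (Nat.card ↥(P j))
      rw [← Nat.coprime_iff_isRelPrime, ha, hb]
      exact Nat.Coprime.pow _ _ ((Nat.coprime_primes (hp i) (hp j)).2 (fun h => hij (hpinj h)))
    · intro i _
      exact card_dvd_of_free (P i) (hfree i)
  have hle : (∏ i, Nat.card ↥(P i)) ≤ Nat.card V - 1 := Nat.le_of_dvd hN0 hprod
  set J : Finset ι := Finset.univ.filter (fun i => P i ≠ ⊥) with hJ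
  set J' : Finset ι := (Finset.univ.erase i₀).filter (fun i => P i ≠ ⊥) with hJ'
  have hJJ : J.card ≤ J'.card + 1 := by
    have h1 : J ⊆ insert i₀ J' := by
      intro i hi
      rw [Finset.mem_insert]
      by_cases h : i = i₀
      · exact Or.inl h
      · right
        rw [hJ', Finset.mem_filter, Finset.mem_erase]
        exact ⟨⟨h, Finset.mem_univ _⟩, (Finset.mem_filter.1 hi).2⟩
    exact (Finset.card_le_card h1).trans (Finset.card_insert_le _ _)
  have hJ1 : 1 ≤ J'.card := by
    rw [Nat.one_le_iff_ne_zero, Ne, Finset.card_eq_zero]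
    intro hemp
    obtain ⟨v, hv⟩ := exists_ne (0 : V)
    apply hv
    refine hrich i₀ v trivial ?_
    intro j hj g hg
    have hPj : P j = ⊥ := by
      by_contra hne
      have : j ∈ J' := by
        rw [hJ', Finset.mem_filter, Finset.mem_erase]
        exact ⟨⟨hj, Finset.mem_univ _⟩, hne⟩
      rw [hemp] at this
      simp at this
    rw [hPj, Subgroup.mem_bot] at hg
    rw [hg]
    simp
  have hsplit : ∏ i, Nat.card ↥(P i) = Nat.card ↥(P i₀) * ∏ i ∈ Finset.univ.erase i₀, Nat.card ↥(P i) :=
    (Finset.mul_prod_erase _ _ (Finset.mem_univ _)).symm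
  have h3 : 3 ^ J'.card ≤ ∏ i ∈ Finset.univ.erase i₀, Nat.card ↥(P i) := by
    calc 3 ^ J'.card = ∏ i ∈ J', 3 := by rw [Finset.prod_const]
      _ ≤ ∏ i ∈ J', Nat.card ↥(P i) := by
        refine Finset.prod_le_prod' ?_
        intro i hi
        have h1 := (Finset.mem_filter.1 hi).2
        have h2 := card_ge_of_ne_bot (hp i) (hP i) h1
        have h4 := (hp i).two_le
        have h5 := hp2 i
        omega
      _ ≤ ∏ i ∈ Finset.univ.erase i₀, Nat.card ↥(P i) := by
        refine Finset.prod_le_prod_of_subset_of_one_le' (Finset.filter_subset _ _) ?_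
        intro i _ _
        exact Nat.card_pos
  have hn0 : 1 ≤ Nat.card ↥(P i₀) := Nat.card_pos
  have hmain : J'.card + 1 + Nat.card ↥(P i₀) ≤ ∏ i, Nat.card ↥(P i) := by
    rw [hsplit]
    have h4 : J'.card + 2 ≤ 3 ^ J'.card := by
      have : ∀ m : ℕ, 1 ≤ m → m + 2 ≤ 3 ^ m := by
        intro m hm
        induction m, hm using Nat.le_induction with
        | base => norm_num
        | succ n hn ih => rw [pow_succ]; omega
      exact this _ hJ1
    have h5 : Nat.card ↥(P i₀) * 3 ^ J'.card ≤ Nat.card ↥(P i₀) * ∏ i ∈ Finset.univ.erase i₀, Nat.card ↥(P i) :=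
      Nat.mul_le_mul_left _ h3
    have h6 : Nat.card ↥(P i₀) * (J'.card + 2) ≤ Nat.card ↥(P i₀) * 3 ^ J'.card :=
      Nat.mul_le_mul_left _ h4
    have h7 : J'.card + 1 + Nat.card ↥(P i₀) ≤ Nat.card ↥(P i₀) * (J'.card + 2) := by
      nlinarith
    omega
  set B : Finset V := (J.image fun i => - s i) ∪
    ((Finset.univ : Finset ↥(P i₀)).image fun g => (g.1 : Module.End F V) w - s i₀) with hB
  have hBc : B.card < Fintype.card V := by
    have h1 : B.card ≤ J.card + Nat.card ↥(P i₀) := by
      refine (Finset.card_union_le _ _).trans ?_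
      refine Nat.add_le_add Finset.card_image_le ?_
      refine Finset.card_image_le.trans ?_
      rw [Finset.card_univ, Nat.card_eq_fintype_card]
    rw [← Nat.card_eq_fintype_card]
    omega
  obtain ⟨f, hf⟩ : ∃ f, f ∉ B := by
    by_contra hcon
    push Not at hcon
    have : B = Finset.univ := Finset.eq_univ_iff_forall.2 hcon
    rw [this, Finset.card_univ] at hBc
    exact lt_irrefl _ hBc
  rw [hB, Finset.mem_union, not_or] at hf
  refine ⟨f, ?_, ?_, ?_⟩
  · intro i _ g hg hgf
    by_cases h0 : f + s i = 0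
    · have hfi : f = - s i := eq_neg_of_add_eq_zero_left h0
      have : P i = ⊥ := by
        by_contra hne
        exact hf.1 (Finset.mem_image.2 ⟨i, Finset.mem_filter.2 ⟨Finset.mem_univ _, hne⟩, hfi.symm⟩)
      rw [this, Subgroup.mem_bot] at hg
      exact hg
    · exact hfree i g hg _ h0 hgf
  · intro i hi
    exact absurd hi (hp2 i)
  · intro _ g hg hgw
    exact hf.2 (Finset.mem_image.2 ⟨⟨g, hg⟩, Finset.mem_univ _, by simp [hgw]⟩)

end free

end Pool.H45.SY
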