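import Pool.Agent.H45.SY.LA2
import Pool.Agent.H45.SY.LA3
import Pool.Agent.H77.Syl.LB

/-!
Module lemma with targets, part 4: the induction, and the final lemma (all characteristics).
-/

set_option autoImplicit false

namespace Pool.H45.SY

open Pool.Agent.H77.Syl Finset

universe u

theorem cast_two_of_not_odd {F : Type*} [Field F] [Finite F] (h : ¬ Odd (Nat.card F)) :
    (2 : F) = 0 := by
  have := Fintype.ofFinite F
  have h1 : Fintype.card F % 2 = 0 := by
    rw [Nat.card_eq_fintype_card, Nat.not_odd_iff_even] at h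
    exact Nat.even_iff.1 h
  have h2 := FiniteField.even_card_iff_char_two.2 h1
  have h3 := ringChar.Nat.cast_ringChar (R := F)
  rw [h2] at h3
  exact_mod_cast h3

theorem goodT_aux (hPG : PGS.{u}) {F : Type*} [Field F] [Finite F]
    {ι : Type*} [Finite ι] (p : ι → ℕ)
    (hp : ∀ i, (p i).Prime) (hpinj : Function.Injective p)
    (hpF : ∀ i, (p i : F) ≠ 0) : ∀ n : ℕ, ∀ (V : Type u) [AddCommGroup V] [Module F V] [Finite V]
    [Nontrivial V], Nat.card V = n → ∀ P : ι → Subgroup (Module.End F V)ˣ,
    (∀ i, IsPGroup (p i) (P i)) →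
    (∀ i j, i ≠ j → ∀ g ∈ P i, ∀ h ∈ P j, g * h = h * g) →
    (Odd (Nat.card F) ∨ RichOn P (⊤ : Submodule F V)) → GoodT p P := by
  classical
  intro n
  induction n using Nat.strong_induction_on with
  | _ n ih =>
  intro V _ _ _ _ hn P hP hcomm hrich
  have hfE : Finite (Module.End F V) :=
    Finite.of_injective (fun f : Module.End F V => (f : V → V)) DFunLike.coe_injective
  have hsub : ∀ U : Submodule F V, U ≠ ⊥ → U ≠ ⊤ → SubGoodT p U := by
    intro U hU1 hU2
    have hnt : Nontrivial ↥U := Submodule.nontrivial_iff_ne_bot.2 hU1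
    have hlt : Nat.card ↥U < n := by
      rw [← hn]
      obtain ⟨x, hx⟩ : ∃ x, x ∉ U := by
        by_contra hcon
        push Not at hcon
        exact hU2 (Submodule.eq_top_iff'.2 hcon)
      exact Finite.card_subtype_lt hx
    exact transferT p U (fun P' h1 h2 h3 => ih _ hlt ↥U rfl P' h1 h2 h3)
  by_cases hirr : ∀ U : Submodule F V, (∀ i, ∀ g ∈ P i, ∀ v ∈ U, (g : Module.End F V) v ∈ U) → U = ⊥ ∨ U = ⊤
  · by_cases hfree : ∀ i, p i ≠ 2 → ∀ g ∈ P i, ∀ v : V, v ≠ 0 → (g : Module.End F V) v = v → g = 1
    · by_cases hodd : Odd (Nat.card F)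
      · refine baseOdd ?_ p hp hpinj P hP hcomm hfree
        rw [Module.natCard_eq_pow_finrank (K := F)]
        exact hodd.pow
      · have hr := hrich.resolve_left hodd
        have hp2 : ∀ i, p i ≠ 2 := by
          intro i hi
          apply hpF i
          rw [hi]
          exact_mod_cast cast_two_of_not_odd hodd
        exact baseEven p hp hp2 hpinj P hP (fun i => hfree i (hp2 i)) hr
    · push Not at hfree
      obtain ⟨i₁, hi₁, g₀, hg₀, v₀, hv₀, hgv₀, hg₀1⟩ := hfree
      have hnc : ¬ IsCyclic ↥(P i₁) := by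
        intro hcyc
        have hab : ∀ g ∈ P i₁, g₀ * g = g * g₀ := by
          intro g hg
          obtain ⟨x, hx⟩ := hcyc.exists_generator
          obtain ⟨a, ha⟩ := Subgroup.mem_zpowers_iff.1 (hx ⟨g₀, hg₀⟩)
          obtain ⟨b, hb⟩ := Subgroup.mem_zpowers_iff.1 (hx ⟨g, hg⟩)
          have h1 : g₀ = (x.1) ^ a := by
            have := congrArg Subtype.val ha
            simpa using this.symm
          have h2 : g = (x.1) ^ b := by
            have := congrArg Subtype.val hb
            simpa using this.symm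
          rw [h1, h2, ← zpow_add, ← zpow_add, add_comm]
        rcases hirr (LinearMap.ker ((g₀ : Module.End F V) - 1)) (by
          intro i g hg v hv
          rw [LinearMap.mem_ker, LinearMap.sub_apply, Module.End.one_apply, sub_eq_zero] at hv ⊢
          have hcm : g₀ * g = g * g₀ := by
            by_cases hi : i = i₁
            · subst hi; exact hab g hg
            · exact (hcomm i i₁ hi g hg g₀ hg₀).symm
          rw [← Module.End.mul_apply, ← Units.val_mul, hcm, Units.val_mul, Module.End.mul_apply, hv]) with h | h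
        · apply hv₀
          have : v₀ ∈ LinearMap.ker ((g₀ : Module.End F V) - 1) := by
            rw [LinearMap.mem_ker, LinearMap.sub_apply, Module.End.one_apply, hgv₀, sub_self]
          rw [h] at this
          simpa using this
        · apply hg₀1
          apply Units.ext
          ext v
          have : v ∈ LinearMap.ker ((g₀ : Module.End F V) - 1) := by rw [h]; trivial
          rw [LinearMap.mem_ker, LinearMap.sub_apply, Module.End.one_apply, sub_eq_zero] at this
          simpa using this
      obtain ⟨z, c, hzc, hz1, hzp, hcp, hcz, hconj⟩ := hPG (p i₁) (hp i₁) hi₁ ↥(P i₁) (hP i₁) hnc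
      refine case2T p hp hpF P hP hcomm hirr hrich hsub i₁ hi₁ z.1 c.1 c.2 z.2 ?_ ?_ ?_ ?_ ?_ ?_
      · intro g hg
        have := (Subgroup.mem_center_iff.1 hzc) ⟨g, hg⟩
        exact (congrArg Subtype.val this).symm
      · intro h
        apply hz1
        exact Subtype.ext h
      · have := congrArg Subtype.val hzp
        simpa using this
      · have := congrArg Subtype.val hcp
        simpa using this
      · intro k hk
        apply hcz k
        apply Subtype.ext
        simpa using hk
      · intro g hg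
        obtain ⟨k, hk⟩ := hconj ⟨g, hg⟩
        refine ⟨k, ?_⟩
        have := congrArg Subtype.val hk
        simpa using this
  · -- reducible case
    push Not at hirr
    obtain ⟨U, hinv, hU1, hU2⟩ := hirr
    have hcard : ∀ i, (Nat.card ↥(P i) : F) ≠ 0 := by
      intro i
      have := Fact.mk (hp i)
      obtain ⟨a, ha⟩ := IsPGroup.iff_card.1 (hP i)
      rw [ha, Nat.cast_pow]
      exact pow_ne_zero _ (hpF i)
    obtain ⟨U', hcompl, hinv'⟩ := maschke P hcard hcomm U hinv
    have hU1' : U' ≠ ⊥ := by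
      intro h
      rw [h] at hcompl
      exact hU2 (by have := hcompl.sup_eq_top; rwa [sup_bot_eq] at this)
    have hU2' : U' ≠ ⊤ := by
      intro h
      rw [h] at hcompl
      exact hU1 (by have := hcompl.inf_eq_bot; rwa [inf_top_eq] at this)
    have hrU : ∀ W : Submodule F V, Odd (Nat.card F) ∨ RichOn P W := by
      intro W
      rcases hrich with h | h
      · exact Or.inl h
      · exact Or.inr fun i v _ hv => h i v trivial hv
    intro s t i₀ w
    have hdec : ∀ v : V, ∃ a ∈ U, ∃ b ∈ U', a + b = v := by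
      intro v
      have : v ∈ U ⊔ U' := by rw [hcompl.sup_eq_top]; trivial
      exact Submodule.mem_sup.1 this
    have huniq : ∀ a ∈ U, ∀ b ∈ U', ∀ a' ∈ U, ∀ b' ∈ U', a + b = a' + b' → a = a' ∧ b = b' := by
      intro a ha b hb a' ha' b' hb' h
      have h1 : a - a' = b' - b := by
        rw [sub_eq_sub_iff_add_eq_add, h, add_comm]
      have h2 : a - a' = 0 := by
        have h3 : a - a' ∈ U := U.sub_mem ha ha'
        have h4 : a - a' ∈ U' := by rw [h1]; exact U'.sub_mem hb' hb
        exact (Submodule.disjoint_def.1 hcompl.disjoint) _ h3 h4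
      refine ⟨sub_eq_zero.1 h2, ?_⟩
      rw [h2] at h1
      exact (sub_eq_zero.1 h1.symm).symm
    choose a ha b hb hab using hdec
    obtain ⟨f1, hf1, h1, h1', h2⟩ := hsub U hU1 hU2 P hP hinv hcomm (hrU U) (fun i => a (s i))
      (fun i => a (t i)) (fun i => ha _) (fun i => ha _) i₀ (a w) (ha w)
    obtain ⟨f2, hf2, h3, h3', -⟩ := hsub U' hU1' hU2' P hP hinv' hcomm (hrU U') (fun i => b (s i))
      (fun i => b (t i)) (fun i => hb _) (fun i => hb _) i₀ 0 U'.zero_mem
    have hfs : ∀ i, f1 + f2 + s i = (f1 + a (s i)) + (f2 + b (s i)) := by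
      intro i
      conv_lhs => rw [← hab (s i)]
      abel
    refine ⟨f1 + f2, ?_, ?_, ?_⟩
    · intro i hi g hg hgf
      rw [hfs, map_add] at hgf
      obtain ⟨h4, h5⟩ := huniq _ (hinv i g hg _ (U.add_mem hf1 (ha (s i)))) _
        (hinv' i g hg _ (U'.add_mem hf2 (hb (s i)))) _ (U.add_mem hf1 (ha (s i))) _ (U'.add_mem hf2 (hb (s i))) hgf
      have h6 := h1 i hi g hg h4
      have h7 := h3 i hi g hg h5
      apply Units.ext
      ext v
      rw [Units.val_one, Module.End.one_apply]
      rw [← hab v, map_add, h6 _ (ha v), h7 _ (hb v)]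
    · intro i hi g hg hgf
      rw [hfs, map_add] at hgf
      obtain ⟨h4, h5⟩ := huniq _ (hinv i g hg _ (U.add_mem hf1 (ha (s i)))) _
        (hinv' i g hg _ (U'.add_mem hf2 (hb (s i)))) _ (U.add_mem hf1 (ha (s i))) _ (U'.add_mem hf2 (hb (s i))) hgf
      have h6 := h1' i hi g hg h4
      have h7 := h3' i hi g hg h5
      rw [← hab (t i), map_add, h6, h7]
    · intro hi g hg hgw
      rw [hfs] at hgw
      rw [← hab w, map_add] at hgw
      obtain ⟨h4, -⟩ := huniq _ (hinv i₀ g hg _ (ha w)) _
        (hinv' i₀ g hg _ (hb w)) _ (U.add_mem hf1 (ha (s i₀))) _ (U'.add_mem hf2 (hb (s i₀))) hgw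
      exact h2 hi g hg h4

/-- Lemma A: commuting groups of coprime order, arbitrary shifts and targets. -/
theorem lemmaA_aux {F : Type*} [Field F] [Finite F]
    {ι : Type*} [Finite ι] (p : ι → ℕ)
    (hp : ∀ i, (p i).Prime) (hpinj : Function.Injective p)
    (hpF : ∀ i, (p i : F) ≠ 0) : ∀ n : ℕ, ∀ (V : Type u) [AddCommGroup V] [Module F V] [Finite V],
    Nat.card V = n → ∀ P : ι → Subgroup (Module.End F V)ˣ,
    (∀ i, IsPGroup (p i) (P i)) →
    (∀ i j, i ≠ j → ∀ g ∈ P i, ∀ h ∈ P j, g * h = h * g) →
    ∀ s t : ι → V, ∃ f : V, ∀ i, ∀ g ∈ P i, (g : Module.End F V) (f + s i) = f + s i →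
      (g : Module.End F V) (t i) = t i := by
  classical
  intro n
  induction n using Nat.strong_induction_on with
  | _ n ih =>
  intro V _ _ _ hn P hP hcomm s t
  have hfE : Finite (Module.End F V) :=
    Finite.of_injective (fun f : Module.End F V => (f : V → V)) DFunLike.coe_injective
  rcases isEmpty_or_nonempty ι with hι | ⟨⟨i₀⟩⟩
  · exact ⟨0, fun i => hι.elim i⟩
  rcases subsingleton_or_nontrivial V with hV | hV
  · exact ⟨0, fun i g _ _ => Subsingleton.elim _ _⟩
  by_cases hrich : Odd (Nat.card F) ∨ RichOn P (⊤ : Submodule F V)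
  · obtain ⟨f, h1, h2, -⟩ := goodT_aux pgs p hp hpinj hpF n V hn P hP hcomm hrich s t i₀ 0
    refine ⟨f, fun i g hg hgf => ?_⟩
    by_cases hi : p i = 2
    · exact h2 i hi g hg hgf
    · rw [h1 i hi g hg hgf]
      simp
  · push Not at hrich
    obtain ⟨-, hr⟩ := hrich
    unfold RichOn at hr
    push Not at hr
    obtain ⟨i, v₀, -, hv₀, hv₀0⟩ := hr
    let C : Submodule F V :=
      { carrier := {v | ∀ j, j ≠ i → ∀ g ∈ P j, (g : Module.End F V) v = v}
        add_mem' := by
          intro a b ha hb j hj g hg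
          rw [map_add, ha j hj g hg, hb j hj g hg]
        zero_mem' := by
          intro j hj g hg
          exact map_zero _
        smul_mem' := by
          intro c a ha j hj g hg
          rw [map_smul, ha j hj g hg] }
    have hCmem : ∀ v, v ∈ C ↔ ∀ j, j ≠ i → ∀ g ∈ P j, (g : Module.End F V) v = v := fun v => Iff.rfl
    have hCinv : ∀ l, ∀ g ∈ P l, ∀ v ∈ C, (g : Module.End F V) v ∈ C := by
      intro l g hg v hv
      rw [hCmem] at hv ⊢
      intro j hj h hh
      by_cases hjl : j = l
      · subst hjl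
        rw [hv j hj g hg, hv j hj h hh]
      · rw [← Module.End.mul_apply, ← Units.val_mul, hcomm j l hjl h hh g hg, Units.val_mul,
          Module.End.mul_apply, hv j hj h hh]
    have hC0 : C ≠ ⊥ := by
      intro h
      have : v₀ ∈ C := hv₀
      rw [h] at this
      exact hv₀0 (by simpa using this)
    have hcard : ∀ i, (Nat.card ↥(P i) : F) ≠ 0 := by
      intro i
      have := Fact.mk (hp i)
      obtain ⟨a, ha⟩ := IsPGroup.iff_card.1 (hP i)
      rw [ha, Nat.cast_pow]
      exact pow_ne_zero _ (hpF i)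
    obtain ⟨U, hcompl, hinv⟩ := maschke P hcard hcomm C hCinv
    have hU2 : U ≠ ⊤ := by
      intro h
      rw [h] at hcompl
      exact hC0 (by have := hcompl.inf_eq_bot; rwa [inf_top_eq] at this)
    have hlt : Nat.card ↥U < n := by
      rw [← hn]
      obtain ⟨x, hx⟩ : ∃ x, x ∉ U := by
        by_contra hcon
        push Not at hcon
        exact hU2 (Submodule.eq_top_iff'.2 hcon)
      exact Finite.card_subtype_lt hx
    have hdec : ∀ v : V, ∃ a ∈ C, ∃ b ∈ U, a + b = v := by
      intro v
      have : v ∈ C ⊔ U := by rw [hcompl.sup_eq_top]; trivial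
      exact Submodule.mem_sup.1 this
    have huniq : ∀ a ∈ C, ∀ b ∈ U, ∀ a' ∈ C, ∀ b' ∈ U, a + b = a' + b' → a = a' ∧ b = b' := by
      intro a ha b hb a' ha' b' hb' h
      have h1 : a - a' = b' - b := by
        rw [sub_eq_sub_iff_add_eq_add, h, add_comm]
      have h2 : a - a' = 0 := by
        have h3 : a - a' ∈ C := C.sub_mem ha ha'
        have h4 : a - a' ∈ U := by rw [h1]; exact U.sub_mem hb' hb
        exact (Submodule.disjoint_def.1 hcompl.disjoint) _ h3 h4
      refine ⟨sub_eq_zero.1 h2, ?_⟩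
      rw [h2] at h1
      exact (sub_eq_zero.1 h1.symm).symm
    choose a ha b hb hab using hdec
    set φ : ∀ i, ↥(P i) →* (Module.End F ↥U)ˣ := fun i => (resHom (P i) U (hinv i)).toHomUnits with hφ
    have hφv : ∀ i (g : ↥(P i)) (v : ↥U), ((((φ i g : (Module.End F ↥U)ˣ) : Module.End F ↥U) v : ↥U) : V)
        = (g.1 : Module.End F V) v := by
      intro i g v; rfl
    obtain ⟨f', hf'⟩ := ih _ hlt ↥U rfl (fun i => (φ i).range)
      (by
        intro i
        exact (hP i).of_surjective (φ i).rangeRestrict (φ i).rangeRestrict_surjective)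
      (by
        rintro i j hij _ ⟨g, rfl⟩ _ ⟨h, rfl⟩
        have := hcomm i j hij g.1 g.2 h.1 h.2
        apply Units.ext
        ext v
        have h1 : (((g.1 * h.1 : (Module.End F V)ˣ) : Module.End F V)) v
          = ((h.1 * g.1 : (Module.End F V)ˣ) : Module.End F V) v := by rw [this]
        rw [Units.val_mul, Units.val_mul, Module.End.mul_apply, Module.End.mul_apply, hφv, hφv, hφv, hφv]
        exact h1)
      (fun i => ⟨b (s i), hb _⟩) (fun i => ⟨b (t i), hb _⟩)
    have hfC : a (t i) - a (s i) ∈ C := C.sub_mem (ha _) (ha _)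
    refine ⟨(a (t i) - a (s i)) + f'.1, ?_⟩
    intro j g hg hgf
    have hfs : (a (t i) - a (s i)) + f'.1 + s j = ((a (t i) - a (s i)) + a (s j)) + (f'.1 + b (s j)) := by
      conv_lhs => rw [← hab (s j)]
      abel
    rw [hfs, map_add] at hgf
    have hm1 : (a (t i) - a (s i)) + a (s j) ∈ C := C.add_mem hfC (ha _)
    have hm2 : f'.1 + b (s j) ∈ U := U.add_mem f'.2 (hb _)
    obtain ⟨h4, h5⟩ := huniq _ (hCinv j g hg _ hm1) _ (hinv j g hg _ hm2) _ hm1 _ hm2 hgf
    have h6 : (g : Module.End F V) (b (t j)) = b (t j) := by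
      have := hf' j (φ j ⟨g, hg⟩) ⟨_, rfl⟩ (by
        apply Subtype.ext
        rw [hφv]
        exact h5)
      have h2 := hφv j ⟨g, hg⟩ ⟨b (t j), hb _⟩
      rw [this] at h2
      exact h2.symm
    have h7 : (g : Module.End F V) (a (t j)) = a (t j) := by
      by_cases hji : j = i
      · subst hji
        rw [sub_add_cancel] at h4
        exact h4
      · exact (hCmem _).1 (ha (t j)) j hji g hg
    conv_lhs => rw [← hab (t j)]
    rw [map_add, h6, h7, hab]

end Pool.H45.SY
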